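import Pool.Agent.Y45.TG.XEx
import Pool.Agent.Y366.TG.Words
import Pool.Agent.Y50.TG.Met
import Pool.Agent.Y38.TG.Fin
import Pool.Agent.Y569.TG.Wreath
import Pool.Agent.Y975.TG.Law

/-!
# Project TG (helper45): the main theorem
-/

set_option autoImplicit false

namespace Pool.Agent.Y45.TG

theorem goal : Goal :=
  goal_of xEx Pool.Agent.Y366.TG.wd Pool.Agent.Y50.TG.t_met Pool.Agent.Y38.TG.fin
    Pool.Agent.Y569.TG.wreath Pool.Agent.Y975.TG.law

end Pool.Agent.Y45.TG
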