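import Pool.Agent.Y45.TG.SqF
import Pool.Agent.Y872.MON.LimB

/-!
# Project TG (helper45): the limit of the sequence (a copy of `Pool.Agent.Y872.MON.LimB`)
-/

set_option autoImplicit false

namespace Pool.Agent.Y45.TG

open Pool.Agent.TH54.BU Pool.Agent.Y45.MON Pool.Agent.Y872.MON

/-- the sequence and its limit -/
structure LF {r : ℕ} (w : WP r) (R0 N p : ℕ) {C : Type} (Φ : Fin r → C → C → C)
    (ε : Fin r → C → C → ℕ) (G : ℕ → Type) [∀ n, Group (G n)] (H : ∀ n, GH (G n))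
    (f : ∀ n, G n →* G (n + 1)) (φ : ∀ n, G n →* Multiplicative (ZMod p))
    (col : ∀ n, G n → C) (Mk : ∀ n, G n → Fin r → C → C → Prop)
    (Xs : ∀ n, Set (G n)) (L : Type) [Group L] (π : ∀ n, G n →* L) : Prop where
  sq : SqF w R0 N p Φ ε G H f φ col Mk Xs
  hp : p.Prime
  hpN : p ∣ N
  R1 : 1 ≤ R0
  N3 : ∀ q : ℕ, q.Prime → q ∣ N → 3 ≤ q
  hε : ∀ j c c', ε j c c' ∣ N ∧ ε j c c' ≠ 1
  sur : ∀ n, Function.Surjective (π n)
  cmp : ∀ n g, π (n + 1) (f n g) = π n g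
  ker : ∀ n g, π n g = 1 → Dies f n g

variable {r : ℕ} {w : WP r} {R0 N p : ℕ} {C : Type} {Φ : Fin r → C → C → C}
  {ε : Fin r → C → C → ℕ} {G : ℕ → Type} [∀ n, Group (G n)] {H : ∀ n, GH (G n)}
  {f : ∀ n, G n →* G (n + 1)} {φ : ∀ n, G n →* Multiplicative (ZMod p)} {col : ∀ n, G n → C} {Mk : ∀ n, G n → Fin r → C → C → Prop}
  {Xs : ∀ n, Set (G n)} {L : Type} [Group L] {π : ∀ n, G n →* L}

namespace LF

theorem inj1 (D : LF w R0 N p Φ ε G H f φ col Mk Xs L π) (n : ℕ) (g : G n) (hg : IsOfFinOrder g)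
    (h : f n g = 1) : g = 1 := by
  obtain ⟨u, hu⟩ := D.sq.ts n g hg
  have h1 := hu 1
  rw [zpow_one] at h1
  have h2 : f n (u * g * u⁻¹) = 1 := by
    rw [map_mul, map_mul, h, mul_one, map_inv, mul_inv_cancel]
  have h3 := (D.sq.st n).small _ (h1.trans (by norm_num)) h2
  exact conj_eq_one_iff.1 h3

theorem injt (D : LF w R0 N p Φ ε G H f φ col Mk Xs L π) : ∀ (n : ℕ) (g : G n), IsOfFinOrder g →
    π n g = 1 → g = 1 := by
  have key : ∀ (n : ℕ) (g : G n), Dies f n g → IsOfFinOrder g → g = 1 := by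
    intro n g h
    induction h with
    | one n => intro _; rfl
    | step n g h ih => intro hg; exact D.inj1 n g hg (ih (MonoidHom.isOfFinOrder (f n) hg))
  exact fun n g hg h => key n g (D.ker n g h) hg

theorem short_ne (D : LF w R0 N p Φ ε G H f φ col Mk Xs L π) : ∀ (n : ℕ) (g : G n),
    (H n).len g ≤ 20 → g ≠ 1 → π n g ≠ 1 := by
  have key : ∀ (n : ℕ) (g : G n), Dies f n g → (H n).len g ≤ 20 → g = 1 := by
    intro n g h
    induction h with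
    | one n => intro _; rfl
    | step n g h ih =>
      intro hl
      have h1 := (D.sq.st n).len g
      have h2 := ih (by omega)
      exact (D.sq.st n).small g hl h2
  exact fun n g h1 h2 h3 => h2 (key n g (D.ker n g h3) h1)

theorem ctt (D : LF w R0 N p Φ ε G H f φ col Mk Xs L π) : ∀ (n : ℕ) (g g' : G n) (u0 : L),
    IsOfFinOrder g → IsOfFinOrder g' → g' ≠ 1 → u0 * π n g * u0⁻¹ = π n g' →
    ∃ u : G n, π n u = u0 ∧ u * g * u⁻¹ = g' := by
  have key : ∀ (n : ℕ) (h : G n), Dies f n h → ∀ g g' u : G n, h = u * g * u⁻¹ * g'⁻¹ →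
      IsOfFinOrder g → IsOfFinOrder g' → g' ≠ 1 →
      ∃ u' : G n, π n u' = π n u ∧ u' * g * u'⁻¹ = g' := by
    intro n h hh
    induction hh with
    | one n =>
      intro g g' u he _ _ _
      exact ⟨u, rfl, mul_inv_eq_one.1 he.symm⟩
    | step n h hd ih =>
      intro g g' u he hg hg' h1
      have h2 : f n g' ≠ 1 := fun h => h1 (D.inj1 n g' hg' h)
      obtain ⟨v, hv1, hv2⟩ := ih (f n g) (f n g') (f n u) (by rw [he]; simp)
        (MonoidHom.isOfFinOrder _ hg) (MonoidHom.isOfFinOrder _ hg') h2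
      obtain ⟨v0, rfl⟩ := (D.sq.st n).surj v
      obtain ⟨u', hu1, hu2⟩ := (D.sq.st n).ctt g g' v0 hg hg' h1
        (by rw [map_mul, map_mul, map_inv]; exact hv2)
      refine ⟨u', ?_, hu2⟩
      rw [← D.cmp n u', hu1, hv1, D.cmp]
  intro n g g' u0 hg hg' h1 h
  obtain ⟨u, rfl⟩ := D.sur n u0
  exact key n (u * g * u⁻¹ * g'⁻¹)
    (D.ker _ _ (by rw [map_mul, map_mul, map_mul, map_inv, map_inv, h, mul_inv_cancel]))
    g g' u rfl hg hg' h1

theorem ev (D : LF w R0 N p Φ ε G H f φ col Mk Xs L π) : ∀ (k n : ℕ) (a b : G n),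
    (H n).len a ≤ k → (H n).len (P0 w.M1 a b) ≤ k → ∃ (m : ℕ) (a' b' : G m),
      π m a' = π n a ∧ π m b' = π n b ∧ IsOfFinOrder a' ∧ IsOfFinOrder (P0 w.M1 a' b') := by
  intro k
  induction k using Nat.strong_induction_on with
  | _ k ih =>
    intro n a b ha hb
    by_cases hk : k ≤ 1
    · refine ⟨n + 1, f n a, f n b, D.cmp n a, D.cmp n b, (D.sq.st n).kill a (ha.trans hk), ?_⟩
      have := (D.sq.st n).kill _ (hb.trans hk)
      rwa [map_P0] at this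
    · have h1 := (D.sq.st n).len a
      have h2 := (D.sq.st n).len (P0 w.M1 a b)
      rw [map_P0] at h2
      obtain ⟨m, a', b', h3, h4, h5, h6⟩ := ih ((k + 1) / 2) (by omega) (n + 1) (f n a) (f n b)
        (by omega) (by omega)
      exact ⟨m, a', b', h3.trans (D.cmp n a), h4.trans (D.cmp n b), h5, h6⟩

theorem ex (D : LF w R0 N p Φ ε G H f φ col Mk Xs L π) (a : L) :
    ∃ (n : ℕ) (g : G n), IsOfFinOrder g ∧ π n g = a := by
  obtain ⟨a0, rfl⟩ := D.sur 0 a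
  obtain ⟨m, a', b', h1, -, h3, -⟩ := D.ev (max ((H 0).len a0) ((H 0).len (P0 w.M1 a0 1))) 0 a0 1
    (le_max_left _ _) (le_max_right _ _)
  exact ⟨m, a', h3, h1⟩

theorem rk_mem (D : LF w R0 N p Φ ε G H f φ col Mk Xs L π) (a : L) :
    ∃ g : G (rk π a), IsOfFinOrder g ∧ π (rk π a) g = a :=
  Nat.sInf_mem (s := {n | ∃ g : G n, IsOfFinOrder g ∧ π n g = a}) (D.ex a)

theorem push (D : LF w R0 N p Φ ε G H f φ col Mk Xs L π) (n m : ℕ) (h : n ≤ m) :
    ∀ g : G n, IsOfFinOrder g → ∃ g' : G m, IsOfFinOrder g' ∧ π m g' = π n g ∧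
      col m g' = col n g := by
  induction m, h using Nat.le_induction with
  | base => exact fun g hg => ⟨g, hg, rfl, rfl⟩
  | succ m hm ih =>
    intro g hg
    obtain ⟨g', h1, h2, h3⟩ := ih g hg
    exact ⟨f m g', MonoidHom.isOfFinOrder _ h1, (D.cmp m g').trans h2,
      (D.sq.colo m g' h1).trans h3⟩

theorem col_eq (D : LF w R0 N p Φ ε G H f φ col Mk Xs L π) (n m : ℕ) (h : n ≤ m) (g : G n)
    (g' : G m) (hg : IsOfFinOrder g) (hg' : IsOfFinOrder g') (he : π n g = π m g') :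
    col n g = col m g' := by
  obtain ⟨g1, h1, h2, h3⟩ := D.push n m h g hg
  rw [← h3]
  by_cases h4 : g' = 1
  · subst h4
    rw [map_one] at he
    have : g1 = 1 := D.injt m g1 h1 (h2.trans he)
    rw [this]
  · obtain ⟨u, hu1, hu2⟩ := D.ctt m g1 g' 1 h1 hg' h4 (by rw [one_mul, inv_one, mul_one, h2, he])
    rw [← hu2, D.sq.colc]

/-- the colours in the limit -/
noncomputable def colL (D : LF w R0 N p Φ ε G H f φ col Mk Xs L π) (a : L) : C :=
  col (rk π a) (Classical.choose (D.rk_mem a))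

theorem colL_eq (D : LF w R0 N p Φ ε G H f φ col Mk Xs L π) {n : ℕ} {g : G n}
    (hg : IsOfFinOrder g) : D.colL (π n g) = col n g :=
  D.col_eq _ _ (rk_le hg) _ _ (Classical.choose_spec (D.rk_mem (π n g))).1 hg
    (Classical.choose_spec (D.rk_mem (π n g))).2

theorem colL_conj (D : LF w R0 N p Φ ε G H f φ col Mk Xs L π) (h a : L) :
    D.colL (h * a * h⁻¹) = D.colL a := by
  obtain ⟨n, g, hg, rfl⟩ := D.ex a
  obtain ⟨u, rfl⟩ := D.sur n h
  have e : π n u * π n g * (π n u)⁻¹ = π n (u * g * u⁻¹) := by simp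
  rw [e, D.colL_eq (cf _ _ hg), D.colL_eq hg, D.sq.colc]

theorem rk_conj_le (D : LF w R0 N p Φ ε G H f φ col Mk Xs L π) (h a : L) :
    rk π (h * a * h⁻¹) ≤ rk π a := by
  obtain ⟨g, hg, hga⟩ := D.rk_mem a
  obtain ⟨u, hu⟩ := D.sur (rk π a) h
  have e : h * a * h⁻¹ = π (rk π a) (u * g * u⁻¹) := by simp [hu, hga]
  rw [e]
  exact rk_le (cf _ _ hg)

theorem rk_conj (D : LF w R0 N p Φ ε G H f φ col Mk Xs L π) (h a : L) :
    rk π (h * a * h⁻¹) = rk π a := by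
  apply le_antisymm (D.rk_conj_le h a)
  have := D.rk_conj_le h⁻¹ (h * a * h⁻¹)
  rwa [show h⁻¹ * (h * a * h⁻¹) * h⁻¹⁻¹ = a by group] at this

theorem N0 (D : LF w R0 N p Φ ε G H f φ col Mk Xs L π) : N ≠ 0 := by
  intro h
  have := D.N3 2 Nat.prime_two (by rw [h]; exact dvd_zero 2)
  omega

theorem exo_pos (D : LF w R0 N p Φ ε G H f φ col Mk Xs L π) (n : ℕ) (x : G n) :
    0 < exo N ε (Mk n) x := by
  have hN : 0 < N := Nat.pos_of_ne_zero D.N0
  unfold exo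
  split
  · exact Nat.pos_of_dvd_of_pos (D.hε _ _ _).1 hN
  · exact hN

theorem N1 (D : LF w R0 N p Φ ε G H f φ col Mk Xs L π) : N ≠ 1 := by
  intro h
  have h1 := D.hpN
  rw [h] at h1
  exact D.hp.one_lt.ne' (Nat.dvd_one.1 h1)

theorem exf_pos (D : LF w R0 N p Φ ε G H f φ col Mk Xs L π) (n : ℕ) (x : G n) :
    0 < exF p (φ n) (exo N ε (Mk n)) x := by
  unfold exF
  split
  · exact D.exo_pos n x
  · exact D.hp.pos

theorem exf_ne (D : LF w R0 N p Φ ε G H f φ col Mk Xs L π) (n : ℕ) (x : G n) :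
    exF p (φ n) (exo N ε (Mk n)) x ≠ 1 := by
  unfold exF
  split
  · unfold exo
    split
    · exact (D.hε _ _ _).2
    · exact D.N1
  · exact D.hp.one_lt.ne'

theorem torX0 (D : LF w R0 N p Φ ε G H f φ col Mk Xs L π) (n : ℕ) (x : G n) (hx : x ∈ Xs n)
    (k : ℤ) : IsOfFinOrder (f n (x ^ k)) := by
  rw [isOfFinOrder_iff_pow_eq_one]
  refine ⟨exF p (φ n) (exo N ε (Mk n)) x, D.exf_pos n x, ?_⟩
  rw [← map_pow, ← zpow_natCast, ← zpow_mul, (D.sq.st n).ord x hx]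
  exact Dvd.intro_left _ rfl

theorem torX (D : LF w R0 N p Φ ε G H f φ col Mk Xs L π) (n : ℕ) (x : G n) (hx : x ∈ Xs n)
    (u : G n) (k : ℤ) : IsOfFinOrder (f n (u * x ^ k * u⁻¹)) := by
  rw [map_mul, map_mul, map_inv]
  exact cf _ _ (D.torX0 n x hx k)

theorem oneX (n : ℕ) (x u : G n) (k : ℤ) : f n (u * x ^ k * u⁻¹) = 1 ↔ f n (x ^ k) = 1 := by
  rw [map_mul, map_mul, map_inv, conj_eq_one_iff]

theorem powX (D : LF w R0 N p Φ ε G H f φ col Mk Xs L π) (n : ℕ) (x : G n) (hx : x ∈ Xs n)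
    (u : G n) (k : ℤ) : π n (u * x ^ k * u⁻¹) = 1 ↔ f n (x ^ k) = 1 := by
  rw [← oneX (f := f) n x u k, ← D.cmp]
  constructor
  · intro h
    exact D.injt _ _ (D.torX n x hx u k) h
  · intro h
    rw [h, map_one]

theorem conj_conj (n : ℕ) (c0 u u' x : G n) (k : ℤ)
    (g : G n) (h : f n c0 * f n (u' * x ^ k * u'⁻¹) * (f n c0)⁻¹ = f n (u * g * u⁻¹)) :
    f n (u⁻¹ * c0 * u' * x ^ k * (u⁻¹ * c0 * u')⁻¹) = f n g := by
  rw [← map_inv, ← map_mul, ← map_mul] at h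
  have e : u⁻¹ * c0 * u' * x ^ k * (u⁻¹ * c0 * u')⁻¹ =
      u⁻¹ * (c0 * (u' * x ^ k * u'⁻¹) * c0⁻¹) * u := by group
  rw [e, map_mul, map_mul, h, ← map_mul, ← map_mul]
  congr 1
  group

theorem centr (D : LF w R0 N p Φ ε G H f φ col Mk Xs L π) (n : ℕ) (x : G n) (hx : x ∈ Xs n)
    (u : G n) (k : ℤ) (h1 : f n (x ^ k) ≠ 1) (b : L)
    (hb : b * π n (u * x ^ k * u⁻¹) = π n (u * x ^ k * u⁻¹) * b) :
    ∃ s : ℤ, b = π n (u * x ^ s * u⁻¹) := by
  have hg := D.torX n x hx u k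
  have h2 : f n (u * x ^ k * u⁻¹) ≠ 1 := fun h => h1 ((oneX n x u k).1 h)
  obtain ⟨c, hc1, hc2⟩ := D.ctt (n + 1) _ _ b hg hg h2
    (by rw [D.cmp, hb, mul_assoc, mul_inv_cancel, mul_one])
  obtain ⟨c0, rfl⟩ := (D.sq.st n).surj c
  obtain ⟨-, ⟨s, hs⟩, -⟩ := (D.sq.st n).cnn x hx x hx (u⁻¹ * c0 * u) k k h1
    (conj_conj n c0 u u x k _ hc2)
  refine ⟨s, ?_⟩
  rw [← hc1, ← D.cmp n (u * x ^ s * u⁻¹), map_mul (f n), map_mul (f n), ← hs, ← map_mul,
    ← map_mul]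
  congr 2
  group

theorem sameX (D : LF w R0 N p Φ ε G H f φ col Mk Xs L π) (n : ℕ) (x x' : G n) (hx : x ∈ Xs n)
    (hx' : x' ∈ Xs n) (u u' : G n) (k l : ℤ) (h1 : f n (x ^ k) ≠ 1)
    (he : π n (u' * x' ^ l * u'⁻¹) = π n (u * x ^ k * u⁻¹)) : x = x' := by
  have h2 : f n (u * x ^ k * u⁻¹) ≠ 1 := fun h => h1 ((oneX n x u k).1 h)
  obtain ⟨c, hc1, hc2⟩ := D.ctt (n + 1) (f n (u' * x' ^ l * u'⁻¹)) (f n (u * x ^ k * u⁻¹)) 1
    (D.torX n x' hx' u' l) (D.torX n x hx u k) h2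
    (by rw [D.cmp, D.cmp, one_mul, inv_one, mul_one, he])
  obtain ⟨c0, rfl⟩ := (D.sq.st n).surj c
  exact ((D.sq.st n).cnn x hx x' hx' (u⁻¹ * c0 * u') k l h1 (conj_conj n c0 u u' x' l _ hc2)).1

theorem rkX (D : LF w R0 N p Φ ε G H f φ col Mk Xs L π) (n : ℕ) (x : G n) (hx : x ∈ Xs n)
    (u : G n) (k : ℤ) (h1 : f n (x ^ k) ≠ 1) : rk π (π n (u * x ^ k * u⁻¹)) = n + 1 := by
  apply le_antisymm
  · rw [← D.cmp]
    exact rk_le (D.torX n x hx u k)
  · by_contra h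
    have h3 : rk π (π n (u * x ^ k * u⁻¹)) ≤ n := by omega
    obtain ⟨g0, hg0, hg1⟩ := D.rk_mem (π n (u * x ^ k * u⁻¹))
    obtain ⟨g, hg2, hg3, -⟩ := D.push _ n h3 g0 hg0
    have hg4 : π n g = π n (u * x ^ k * u⁻¹) := hg3.trans hg1
    have h4 : f n g ≠ 1 := by
      intro h5
      have h6 : π n g = 1 := by rw [← D.cmp, h5, map_one]
      rw [hg4] at h6
      exact h1 ((D.powX n x hx u k).1 h6)
    obtain ⟨c, hc1, hc2⟩ := D.ctt (n + 1) (f n (u * x ^ k * u⁻¹)) (f n g) 1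
      (D.torX n x hx u k) (MonoidHom.isOfFinOrder _ hg2) h4
      (by rw [D.cmp, D.cmp, one_mul, inv_one, mul_one, hg4])
    obtain ⟨c0, rfl⟩ := (D.sq.st n).surj c
    apply h1
    apply (D.sq.st n).cno x hx g (c0 * u) k hg2
    rw [← hc2, ← map_inv, ← map_mul, ← map_mul]
    congr 1
    group

theorem rk_comm (D : LF w R0 N p Φ ε G H f φ col Mk Xs L π) {a b : L} (ha : a ≠ 1)
    (h : b * a = a * b) : rk π b ≤ rk π a := by
  obtain ⟨g, hg, hga⟩ := D.rk_mem a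
  have hmin : ∀ (m : ℕ) (g : G m), IsOfFinOrder g → π m g = a → rk π a ≤ m :=
    fun m g h1 h2 => h2 ▸ rk_le h1
  generalize rk π a = m at *
  cases m with
  | zero => exact absurd (by rw [← hga, D.sq.free g hg, map_one]) ha
  | succ n =>
    rcases (D.sq.st n).tor g hg with ⟨g0, h1, h2⟩ | ⟨x, hx, u, k, h1⟩
    · have := hmin n g0 h2 (by rw [← hga, ← h1, D.cmp])
      omega
    · have h3 : f n (x ^ k) ≠ 1 := by
        intro h3
        apply ha
        rw [← hga, ← h1, (oneX n x u k).2 h3, map_one]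
      obtain ⟨s, rfl⟩ := D.centr n x hx u k h3 b (by rw [← D.cmp, h1, hga]; exact h)
      rw [← D.cmp]
      exact rk_le (D.torX n x hx u s)

theorem sq_ne {g : L} (hN : ∀ q : ℕ, q.Prime → q ∣ N → 3 ≤ q) (h1 : g ^ N = 1) (h2 : g ≠ 1) :
    g ^ 2 ≠ 1 := by
  intro h3
  have h4 : Nat.Coprime 2 N := by
    rw [Nat.Prime.coprime_iff_not_dvd Nat.prime_two]
    intro h5
    have := hN 2 Nat.prime_two h5
    omega
  have h5 : orderOf g ∣ 2 := orderOf_dvd_of_pow_eq_one h3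
  have h6 : orderOf g ∣ N := orderOf_dvd_of_pow_eq_one h1
  have h7 : orderOf g ∣ 1 := by
    rw [← h4]
    exact Nat.dvd_gcd h5 h6
  exact h2 (orderOf_eq_one_iff.1 (Nat.dvd_one.1 h7))

theorem main (D : LF w R0 N p Φ ε G H f φ col Mk Xs L π) (A B : L) (hAB : A * B ≠ B * A) :
    ∃ (n : ℕ) (h0 : L) (a b X : G (n + 1)), Gd (H (n + 1)) a b X ∧ IsOfFinOrder a ∧
      π (n + 1) a = h0 * A * h0⁻¹ ∧ π (n + 1) b = h0 * B * h0⁻¹ ∧
      IsOfFinOrder (f (n + 1) b) ∧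
      X1 w.M1 w.m2 (h0 * A * h0⁻¹) (h0 * B * h0⁻¹) = π (n + 1) X := by
  let S : ℕ → Prop := fun m => ∃ (a b : G m) (h : L), π m a = h * A * h⁻¹ ∧
    π m b = h * B * h⁻¹ ∧ IsOfFinOrder a ∧ IsOfFinOrder (P0 w.M1 a b)
  have hS : ∃ m, S m := by
    obtain ⟨a, ha⟩ := D.sur 0 A
    obtain ⟨b, hb⟩ := D.sur 0 B
    obtain ⟨m, a', b', h1, h2, h3, h4⟩ := D.ev (max ((H 0).len a) ((H 0).len (P0 w.M1 a b))) 0
      a b (le_max_left _ _) (le_max_right _ _)
    exact ⟨m, a', b', 1, by simp [h1, ha], by simp [h2, hb], h3, h4⟩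
  classical
  obtain ⟨m, hm, hmin⟩ : ∃ m, S m ∧ ∀ k < m, ¬ S k :=
    ⟨Nat.find hS, Nat.find_spec hS, fun k hk => Nat.find_min hS hk⟩
  obtain ⟨a', b', h, h1, h2, h3, h4⟩ := hm
  have hA : A ≠ 1 := by rintro rfl; simp at hAB
  have hB : B ≠ 1 := by rintro rfl; simp at hAB
  cases m with
  | zero =>
    exfalso
    have h5 : a' = 1 := D.sq.free a' h3
    rw [h5, map_one] at h1
    exact hA (conj_eq_one_iff.1 h1.symm)
  | succ n =>
    have hab : a' * b' ≠ b' * a' := by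
      intro e
      apply hAB
      have e1 := congrArg (π (n + 1)) e
      rw [map_mul, map_mul, h1, h2] at e1
      have e2 : h * (A * B) * h⁻¹ = h * (B * A) * h⁻¹ := by
        rw [show h * (A * B) * h⁻¹ = h * A * h⁻¹ * (h * B * h⁻¹) by group, e1]
        group
      exact mul_left_cancel (mul_right_cancel e2)
    obtain ⟨a1, b1, k, h5, h6, h7, h8, h9⟩ := (D.sq.st n).pb a' b' h3 hab h4
    have e1 : π (n + 1) (f n a1) = (π (n + 1) k * h) * A * (π (n + 1) k * h)⁻¹ := by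
      rw [h8, map_mul, map_mul, map_inv, h1]
      group
    have e2 : π (n + 1) (f n b1) = (π (n + 1) k * h) * B * (π (n + 1) k * h)⁻¹ := by
      rw [h9, map_mul, map_mul, map_inv, h2]
      group
    have ha1 : a1 ≠ 1 := by
      rintro rfl
      rw [map_one, map_one] at e1
      exact hA (conj_eq_one_iff.1 e1.symm)
    have hb1 : b1 ≠ 1 := by
      rintro rfl
      rw [map_one, map_one] at e2
      exact hB (conj_eq_one_iff.1 e2.symm)
    have h10 : ¬ IsOfFinOrder (P0 w.M1 a1 b1) := fun h10 => hmin n (by omega)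
      ⟨a1, b1, π (n + 1) k * h, (D.cmp n a1).symm.trans e1, (D.cmp n b1).symm.trans e2, h5, h10⟩
    have h11 : IsOfFinOrder (f n (P0 w.M1 a1 b1)) := by
      rw [map_P0, h8, h9, conj_P0]
      exact cf _ _ h4
    have l1 : (H n).len a1 ≤ 1 := by simpa using h6 1
    have l2 : (H n).len (a1 ^ 2) ≤ 1 := by
      have := h6 2
      rwa [zpow_ofNat] at this
    obtain ⟨x1, x2, x3⟩ := (D.sq.st n).xa a1 b1 h5 h6 h7 h10 h11
    have l3 : (H (n + 1)).len (f n b1) ≤ 1 := (D.sq.st n).len0 _ h7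
    refine ⟨n, π (n + 1) k * h, f n a1, f n b1, f n (X1 w.M1 w.m2 a1 b1), ⟨?_, l3, x2, x1, ?_,
      ?_, ?_⟩, MonoidHom.isOfFinOrder _ h5, e1, e2, (D.sq.st (n + 1)).kill _ l3, ?_⟩
    · exact (D.sq.st n).len0 _ (l1.trans D.R1)
    · exact x3 a1 (l1.trans D.R1) ha1
    · have := x3 (a1 ^ 2) (l2.trans D.R1) (sq_ne D.N3 (D.sq.tor n a1 h5) ha1)
      rwa [map_pow] at this
    · exact x3 b1 h7 hb1
    · rw [← e1, ← e2, map_X1, map_X1]

theorem mainV (D : LF w R0 N p Φ ε G H f φ col Mk Xs L π) (j : Fin r) (A B : L)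
    (hAB : A * B ≠ B * A) : ∃ (n : ℕ) (x u : G (n + 2)) (e : ℤ), x ∈ Xs (n + 2) ∧
      (e = 1 ∨ e = -1) ∧ vv w j A B = π (n + 2) (u * x ^ e * u⁻¹) ∧
      (Mk (n + 2) x j (D.colL A) (D.colL B) ∨ Mk (n + 2) x⁻¹ j (D.colL A) (D.colL B)) ∧
      rk π A < n + 3 ∧ rk π B < n + 3 ∧
      (A * B * A⁻¹ * B⁻¹) * vv w j A B ≠ vv w j A B * (A * B * A⁻¹ * B⁻¹) := by
  obtain ⟨n, h0, a, b, X, hg, ha, h1, h2, hb, h3⟩ := D.main A B hAB
  obtain ⟨v1, v2, v3, v4, -⟩ := (D.sq.st (n + 1)).wr a b X hg j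
  have hm := D.sq.mka (n + 1) a b X j hg
  obtain ⟨x, hx, u, k, hV⟩ := (D.sq.st (n + 2)).short _ v1 v2
  -- `k` is a unit
  obtain ⟨hx1, hx2⟩ := (D.sq.st (n + 2)).prim x hx
  have hk : k = 1 ∨ k = -1 := by
    obtain ⟨t, ht⟩ := v3 (u * x * u⁻¹) (by rw [hV]; group)
    rw [hV] at ht
    have e1 : (u * x ^ k * u⁻¹) ^ t = u * x ^ (k * t) * u⁻¹ := by
      rw [zpow_mul, conj_zpow]
    rw [e1] at ht
    have e2 : x = x ^ (k * t) := mul_left_cancel (mul_right_cancel ht)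
    have e3 : x ^ (k * t - 1) = 1 := by
      rw [zpow_sub, ← e2, zpow_one, mul_inv_cancel]
    have e4 : k * t - 1 = 0 := by
      by_contra h
      exact hx1 (isOfFinOrder_iff_zpow_eq_one.2 ⟨_, h, e3⟩)
    exact Int.eq_one_or_neg_one_of_mul_eq_one (show k * t = 1 by omega)
  have hcA : col (n + 1 + 1) (f (n + 1) a) = D.colL A := by
    rw [← D.colL_eq (MonoidHom.isOfFinOrder _ ha), D.cmp, h1, D.colL_conj]
  have hcB : col (n + 1 + 1) (f (n + 1) b) = D.colL B := by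
    rw [← D.colL_eq hb, D.cmp, h2, D.colL_conj]
  rw [hcA, hcB, hV] at hm
  have hm2 := D.sq.mkc _ u⁻¹ _ _ _ _ hm
  rw [show u⁻¹ * (u * x ^ k * u⁻¹) * u⁻¹⁻¹ = x ^ k by group] at hm2
  have hvv : h0 * vv w j A B * h0⁻¹ = π (n + 2) (u * x ^ k * u⁻¹) := by
    rw [← hV, D.cmp, map_Wj, h1, h2, ← h3, conj_X1, conj_Wj]
    rfl
  obtain ⟨c, hc⟩ := D.sur (n + 2) h0⁻¹
  refine ⟨n, x, c * u, k, hx, hk, ?_, ?_, ?_, ?_, ?_⟩
  · have e1 : c * u * x ^ k * (c * u)⁻¹ = c * (u * x ^ k * u⁻¹) * c⁻¹ := by group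
    rw [e1, map_mul, map_mul, map_inv, ← hvv, hc]
    group
  · rcases hk with rfl | rfl
    · left
      rwa [zpow_one] at hm2
    · right
      rwa [zpow_neg, zpow_one] at hm2
  · have : rk π A ≤ n + 1 := by
      rw [← D.rk_conj h0 A, ← h1]
      exact rk_le ha
    omega
  · have : rk π B ≤ n + 2 := by
      rw [← D.rk_conj h0 B, ← h2, ← D.cmp]
      exact rk_le hb
    omega
  · intro hcom
    have hab : a * b ≠ b * a := by
      intro e
      apply hAB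
      have e1 := congrArg (π (n + 1)) e
      rw [map_mul, map_mul, h1, h2] at e1
      have e2 : h0 * (A * B) * h0⁻¹ = h0 * (B * A) * h0⁻¹ := by
        rw [show h0 * (A * B) * h0⁻¹ = h0 * A * h0⁻¹ * (h0 * B * h0⁻¹) by group, e1]
        group
      exact mul_left_cancel (mul_right_cancel e2)
    have v5 := v4 hab
    set c1 := f (n + 1) (a * b * a⁻¹ * b⁻¹) with hc1
    set V := f (n + 1) (Wj w j a b X) with hV1
    have e3 : c1 * V * c1⁻¹ * V⁻¹ ≠ 1 := by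
      intro h
      apply v5
      have := mul_inv_eq_one.1 h
      rw [mul_inv_eq_iff_eq_mul] at this
      exact this
    have l1 : (H (n + 1)).len (a * b * a⁻¹ * b⁻¹) ≤ 4 := by
      have g1 := (H (n + 1)).len_mul (a * b * a⁻¹) b⁻¹
      have g2 := (H (n + 1)).len_mul (a * b) a⁻¹
      have g3 := (H (n + 1)).len_mul a b
      rw [(H (n + 1)).len_inv] at g1 g2
      have := hg.la
      have := hg.lb
      omega
    have l2 : (H (n + 1 + 1)).len c1 ≤ 2 := by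
      have := (D.sq.st (n + 1)).len (a * b * a⁻¹ * b⁻¹)
      rw [← hc1] at this
      omega
    have l3 : (H (n + 1 + 1)).len (c1 * V * c1⁻¹ * V⁻¹) ≤ 20 := by
      have g1 := (H (n + 1 + 1)).len_mul (c1 * V * c1⁻¹) V⁻¹
      have g2 := (H (n + 1 + 1)).len_mul (c1 * V) c1⁻¹
      have g3 := (H (n + 1 + 1)).len_mul c1 V
      rw [(H (n + 1 + 1)).len_inv] at g1 g2
      omega
    apply D.short_ne _ _ l3 e3
    have e4 : π (n + 1 + 1) V = h0 * vv w j A B * h0⁻¹ := by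
      rw [hvv, ← hV]
    have e5 : π (n + 1 + 1) c1 = h0 * (A * B * A⁻¹ * B⁻¹) * h0⁻¹ := by
      rw [hc1, D.cmp]
      simp only [map_mul, map_inv, h1, h2]
      group
    rw [map_mul, map_mul, map_mul, map_inv, map_inv, e4, e5]
    have e6 : h0 * (A * B * A⁻¹ * B⁻¹) * h0⁻¹ * (h0 * vv w j A B * h0⁻¹) *
        (h0 * (A * B * A⁻¹ * B⁻¹) * h0⁻¹)⁻¹ * (h0 * vv w j A B * h0⁻¹)⁻¹ =
        h0 * ((A * B * A⁻¹ * B⁻¹) * vv w j A B * (A * B * A⁻¹ * B⁻¹)⁻¹ *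
          (vv w j A B)⁻¹) * h0⁻¹ := by group
    rw [e6, hcom]
    group

theorem mk_uniq (D : LF w R0 N p Φ ε G H f φ col Mk Xs L π) (n : ℕ) (x : G n) (j j' : Fin r)
    (c c' d d' : C) (h1 : Mk n x j c c' ∨ Mk n x⁻¹ j c c')
    (h2 : Mk n x j' d d' ∨ Mk n x⁻¹ j' d d') : j = j' ∧ c = d ∧ c' = d' := by
  rcases h1 with h1 | h1 <;> rcases h2 with h2 | h2
  · exact D.sq.mku n x j j' c c' d d' h1 h2
  · exact absurd h2 (D.sq.mki n x j j' c c' d d' h1)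
  · exact absurd h1 (D.sq.mki n x j' j d d' c c' h2)
  · exact D.sq.mku n x⁻¹ j j' c c' d d' h1 h2

theorem exo_eq (D : LF w R0 N p Φ ε G H f φ col Mk Xs L π) (n : ℕ) (x : G n) (j : Fin r)
    (c c' : C) (h1 : Mk n x j c c' ∨ Mk n x⁻¹ j c c') : exo N ε (Mk n) x = ε j c c' := by
  have h : ∃ m : Fin r × C × C, Mk n x m.1 m.2.1 m.2.2 ∨ Mk n x⁻¹ m.1 m.2.1 m.2.2 :=
    ⟨(j, c, c'), h1⟩
  unfold exo
  rw [dif_pos h]
  obtain ⟨e1, e2, e3⟩ := D.mk_uniq n x _ _ _ _ _ _ h.choose_spec h1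
  rw [e1, e2, e3]

theorem ne_one (D : LF w R0 N p Φ ε G H f φ col Mk Xs L π) (n : ℕ) (x : G n) (hx : x ∈ Xs n)
    (e : ℤ) (he : e = 1 ∨ e = -1) : f n (x ^ e) ≠ 1 := by
  intro h
  rw [(D.sq.st n).ord x hx] at h
  have h2 : (exF p (φ n) (exo N ε (Mk n)) x : ℤ) ∣ 1 := by
    rcases he with rfl | rfl
    · exact h
    · rwa [Int.dvd_neg] at h
  have h3 : exF p (φ n) (exo N ε (Mk n)) x ∣ 1 := by exact_mod_cast h2
  exact D.exf_ne n x (Nat.dvd_one.1 h3)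

theorem order (D : LF w R0 N p Φ ε G H f φ col Mk Xs L π) (n : ℕ) (x : G n) (hx : x ∈ Xs n)
    (u : G n) (e : ℤ) (he : e = 1 ∨ e = -1) :
    orderOf (π n (u * x ^ e * u⁻¹)) = exF p (φ n) (exo N ε (Mk n)) x := by
  have key : ∀ l : ℕ, (π n (u * x ^ e * u⁻¹)) ^ l = 1 ↔
      exF p (φ n) (exo N ε (Mk n)) x ∣ l := by
    intro l
    have e1 : (u * x ^ e * u⁻¹) ^ l = u * x ^ (e * l) * u⁻¹ := by
      rw [zpow_mul, zpow_natCast, conj_pow]
    rw [← map_pow, e1, D.powX n x hx, (D.sq.st n).ord x hx]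
    rcases he with rfl | rfl
    · rw [one_mul]
      exact Int.natCast_dvd_natCast
    · rw [neg_one_mul, Int.dvd_neg]
      exact Int.natCast_dvd_natCast
  apply Nat.dvd_antisymm
  · exact orderOf_dvd_of_pow_eq_one ((key _).2 dvd_rfl)
  · exact (key _).1 (pow_orderOf_eq_one _)

theorem phi_dies (D : LF w R0 N p Φ ε G H f φ col Mk Xs L π) : ∀ (n : ℕ) (g : G n),
    Dies f n g → φ n g = 1 := by
  intro n g h
  induction h with
  | one n => exact map_one _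
  | step n g h ih => rw [← D.sq.phi, ih]

/-- the homomorphism of the limit -/
theorem exists_phi (D : LF w R0 N p Φ ε G H f φ col Mk Xs L π) :
    ∃ φL : L →* Multiplicative (ZMod p), ∀ (n : ℕ) (g : G n), φL (π n g) = φ n g := by
  have hker : (π 0).ker ≤ (φ 0).ker := by
    intro g hg
    rw [MonoidHom.mem_ker] at hg ⊢
    exact D.phi_dies 0 g (D.ker 0 g hg)
  refine ⟨(π 0).liftOfSurjective (D.sur 0) ⟨φ 0, hker⟩, ?_⟩
  intro n
  induction n with
  | zero =>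
    intro g
    exact MonoidHom.liftOfRightInverse_comp_apply _ _ (Function.rightInverse_surjInv (D.sur 0))
        ⟨φ 0, hker⟩ g
  | succ n ih =>
    intro g
    obtain ⟨g0, rfl⟩ := (D.sq.st n).surj g
    rw [D.cmp, ih, D.sq.phi]

theorem phi_conj (n : ℕ) (u x : G n) (e : ℤ) : φ n (u * x ^ e * u⁻¹) = φ n x ^ e := by
  rw [map_mul, map_mul, map_inv, map_zpow, mul_comm, inv_mul_cancel_left]

theorem form (D : LF w R0 N p Φ ε G H f φ col Mk Xs L π) (y : L) (hy : y ≠ 1) :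
    ∃ (n : ℕ) (x u : G n) (k : ℤ), x ∈ Xs n ∧ y = π n (u * x ^ k * u⁻¹) ∧ f n (x ^ k) ≠ 1 := by
  obtain ⟨g, hg, hga⟩ := D.rk_mem y
  have hmin : ∀ (m : ℕ) (g : G m), IsOfFinOrder g → π m g = y → rk π y ≤ m :=
    fun m g h1 h2 => h2 ▸ rk_le h1
  generalize rk π y = m at *
  cases m with
  | zero => exact absurd (by rw [← hga, D.sq.free g hg, map_one]) hy
  | succ n =>
    rcases (D.sq.st n).tor g hg with ⟨g0, h1, h2⟩ | ⟨x, hx, u, k, h1⟩
    · have := hmin n g0 h2 (by rw [← hga, ← h1, D.cmp])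
      omega
    · have h3 : f n (x ^ k) ≠ 1 := by
        intro h3
        apply hy
        rw [← hga, ← h1, (oneX n x u k).2 h3, map_one]
      exact ⟨n, x, u, k, hx, by rw [← D.cmp, h1, hga], h3⟩

end LF

/-- TG0b -/
theorem limF : LimFStmt := by
  intro r w R0 N p C Φ ε G _ H f φ col Mk Xs h1 hp hpN h2 h3 hS
  obtain ⟨L, iL, π, p1, p2, p3⟩ := exists_lim f (fun n => (hS.st n).surj)
  let D : LF w R0 N p Φ ε G H f φ col Mk Xs L π := ⟨hS, hp, hpN, h1, h2, h3, p1, p2, p3⟩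
  obtain ⟨φL, hφ⟩ := D.exists_phi
  refine ⟨L, iL, φL, D.colL, rk π, ?_, ?_, ?_, ?_, ?_, ?_, ?_, ?_⟩
  · intro g
    obtain ⟨n, g0, h1, rfl⟩ := D.ex g
    rw [← map_pow, D.sq.tor n g0 h1, map_one]
  · obtain ⟨x, y, h1, h2, h3, h4⟩ := D.sq.gen
    refine ⟨π 0 x, π 0 y, ?_, ?_⟩
    · rw [← Set.image_pair, ← MonoidHom.map_closure, h1, ← MonoidHom.range_eq_map,
        MonoidHom.range_eq_top.2 (D.sur 0)]
    · intro e
      have e3 : x * y * x⁻¹ * y⁻¹ ≠ 1 := by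
        intro h
        apply h2
        have := mul_inv_eq_one.1 h
        rw [mul_inv_eq_iff_eq_mul] at this
        exact this
      have l1 : (H 0).len (x * y * x⁻¹ * y⁻¹) ≤ 20 := by
        have g1 := (H 0).len_mul (x * y * x⁻¹) y⁻¹
        have g2 := (H 0).len_mul (x * y) x⁻¹
        have g3 := (H 0).len_mul x y
        rw [(H 0).len_inv] at g1 g2
        omega
      apply D.short_ne _ _ l1 e3
      rw [map_mul, map_mul, map_mul, map_inv, map_inv, e]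
      group
  · obtain ⟨g, hg⟩ := D.sq.phs
    exact ⟨π 0 g, by rw [hφ, hg]⟩
  · intro a b ha hb h
    exact le_antisymm (D.rk_comm hb h) (D.rk_comm ha h.symm)
  · intro j a b hab
    obtain ⟨n, x, u, e, hx, he, h1, h2, h3, h4, h5⟩ := D.mainV j a b hab
    have h6 := D.rkX (n + 2) x hx u e (D.ne_one _ x hx e he)
    rw [h1, h6]
    exact ⟨h3, h4⟩
  · intro j a b hv hab
    obtain ⟨n, x, u, e, hx, he, h1, h2, h3, h4, h5⟩ := D.mainV j a b hab
    rw [h1, hφ, LF.phi_conj] at hv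
    have hx1 : φ (n + 2) x = 1 := by
      rcases he with rfl | rfl
      · rwa [zpow_one] at hv
      · rwa [zpow_neg, zpow_one, inv_eq_one] at hv
    rw [h1, D.order _ x hx u e he, exF, if_pos hx1, D.exo_eq _ x j _ _ h2]
  · intro j a b hab
    obtain ⟨n, x, u, e, hx, he, h1, h2, h3, h4, h5⟩ := D.mainV j a b hab
    rw [h1, ← D.cmp, D.colL_eq (D.torX _ x hx u e)]
    exact D.sq.coln _ x u e j _ _ hx h2 (D.ne_one _ x hx e he)
  · intro y h hy hh hcom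
    have hy1 : y ≠ 1 := by
      rintro rfl
      exact hy (map_one _)
    obtain ⟨n, x, u, k, hx, rfl, hk⟩ := D.form y hy1
    obtain ⟨s, rfl⟩ := D.centr n x hx u k hk h hcom.symm
    rw [hφ, LF.phi_conj] at hy hh
    have hx1 : φ n x ≠ 1 := by
      intro hx1
      rw [hx1, one_zpow] at hy
      exact hy rfl
    have hs : (p : ℤ) ∣ s := by
      have h4 : orderOf (φ n x) = p := by
        haveI : Fact p.Prime := ⟨hp⟩
        apply orderOf_eq_prime _ hx1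
        have h5 : (Multiplicative.toAdd (φ n x ^ p)) = 0 := by
          rw [toAdd_pow, nsmul_eq_mul, ZMod.natCast_self, zero_mul]
        exact h5
      rw [← h4]
      exact orderOf_dvd_iff_zpow_eq_one.2 hh
    rw [D.powX n x hx, (D.sq.st n).ord x hx, exF, if_neg hx1]
    exact hs

end Pool.Agent.Y45.TG
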