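import Pool.Agent.Y45.TG.SqF
import Pool.Agent.Y314.HM.StepE
import Pool.Agent.Y864.MON.LimA

/-!
# Project TG (helper45): existence of the sequence (a copy of `Pool.Agent.Y864.MON.LimA`)
-/

set_option autoImplicit false

namespace Pool.Agent.Y45.TG

open Pool.Agent.TH54.BU Pool.Agent.Y45.MON Pool.Agent.Y864.MON Pool.Agent.Y314.HM

/-- the relation between successive stages -/
structure RelX {r : ℕ} {K B T N : ℕ} {C : Type} (w : WP r) (R0 : ℕ) (Φ : Fin r → C → C → C)
    {s : Stage (r := r) K B T N C} (ex : s.G → ℕ) (s' : Stage (r := r) K B T N C)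
    (f : s.G →* s'.G) (Xs : Set s.G) : Prop where
  st : StepX w R0 ex Xs s.H s'.H f
  colo : ∀ g : s.G, IsOfFinOrder g → s'.col (f g) = s.col g
  coln : ∀ (x u : s.G) (k : ℤ) (j : Fin r) (c c' : C), x ∈ Xs →
    (s.Mk x j c c' ∨ s.Mk x⁻¹ j c c') → f (x ^ k) ≠ 1 →
    s'.col (f (u * x ^ k * u⁻¹)) = Φ j c c'
  mka : ∀ (a b X : s.G) (j : Fin r), Gd s.H a b X →
    s'.Mk (f (Wj w j a b X)) j (s'.col (f a)) (s'.col (f b))

section step

variable {r : ℕ} {w : WP r} {R0 K B T N : ℕ} {C : Type}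

/-- first case of the colour -/
private def P1 {G G' : Type} [Group G] [Group G'] (f : G →* G') (q : G') (g : G) : Prop :=
  IsOfFinOrder g ∧ ∃ h : G', h * q * h⁻¹ = f g

/-- second case of the colour -/
private def P2 {G G' : Type} [Group G] [Group G'] (f : G →* G') (Xs : Set G)
    (Mk : G → Fin r → C → C → Prop) (q : G') (m : G × Fin r × C × C) : Prop :=
  m.1 ∈ Xs ∧ (Mk m.1 m.2.1 m.2.2.1 m.2.2.2 ∨ Mk m.1⁻¹ m.2.1 m.2.2.1 m.2.2.2) ∧
    ∃ (k : ℤ) (h : G'), h * q * h⁻¹ = f (m.1 ^ k) ∧ f (m.1 ^ k) ≠ 1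

open Classical in
/-- the colour as a function of the two predicates -/
private noncomputable def colP {G : Type} [Inhabited C] (Φ : Fin r → C → C → C) (col : G → C)
    (p1 : G → Prop) (p2 : G × Fin r × C × C → Prop) : C :=
  if h : ∃ g, p1 g then col h.choose
  else if h : ∃ m, p2 m then Φ h.choose.2.1 h.choose.2.2.1 h.choose.2.2.2 else default

private theorem P1_conj {G G' : Type} [Group G] [Group G'] (f : G →* G') (q u : G') :
    P1 f (u * q * u⁻¹) = P1 f q := by
  funext g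
  apply propext
  constructor
  · rintro ⟨h1, h, h2⟩
    refine ⟨h1, h * u, ?_⟩
    rw [← h2]
    group
  · rintro ⟨h1, h, h2⟩
    refine ⟨h1, h * u⁻¹, ?_⟩
    rw [← h2]
    group

private theorem P2_conj {G G' : Type} [Group G] [Group G'] (f : G →* G') (Xs : Set G)
    (Mk : G → Fin r → C → C → Prop) (q u : G') :
    P2 f Xs Mk (u * q * u⁻¹) = P2 f Xs Mk q := by
  funext m
  apply propext
  constructor
  · rintro ⟨h1, h2, k, h, h3, h4⟩
    refine ⟨h1, h2, k, h * u, ?_, h4⟩
    rw [← h3]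
    group
  · rintro ⟨h1, h2, k, h, h3, h4⟩
    refine ⟨h1, h2, k, h * u⁻¹, ?_, h4⟩
    rw [← h3]
    group

/-- one step -/
theorem exists_next [Inhabited C] (Φ : Fin r → C → C → C) (s : Stage (r := r) K B T N C)
    {G' : Type} [Group G'] (H' : GH G') (f : s.G →* G') (Xs : Set s.G)
    (hD : H'.D = 4) (hst : H'.Stab T) (hac : H'.Acy K B) (htor : Tor G' N)
    (ex : s.G → ℕ) (hX : StepX w R0 ex Xs s.H H' f) (hKe : KerP ex Xs f) :
    ∃ (s' : Stage (r := r) K B T N C) (f' : s.G →* s'.G) (Xs' : Set s.G),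
      RelX w R0 Φ ex s' f' Xs' ∧ KerP ex Xs' f' := by
  classical
  let col' : G' → C := fun q => colP Φ s.col (P1 f q) (P2 f Xs s.Mk q)
  have hcolc : ∀ u q : G', col' (u * q * u⁻¹) = col' q := by
    intro u q
    show colP Φ s.col (P1 f (u * q * u⁻¹)) (P2 f Xs s.Mk (u * q * u⁻¹)) = _
    rw [P1_conj, P2_conj]
  -- torsion elements in the kernel
  have hker : ∀ g : s.G, IsOfFinOrder g → f g = 1 → g = 1 := by
    intro g hg h1
    obtain ⟨u, hu⟩ := s.ts g hg
    have h2 : s.H.len (u * g * u⁻¹) ≤ 20 := by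
      have := hu 1
      rw [zpow_one] at this
      omega
    have h3 := hX.small _ h2 (by rw [map_mul, map_mul, h1, mul_one, map_inv, mul_inv_cancel])
    have h4 : g = u⁻¹ * (u * g * u⁻¹) * u := by group
    rw [h4, h3]
    group
  have hcolo : ∀ g : s.G, IsOfFinOrder g → col' (f g) = s.col g := by
    intro g hg
    have hex : ∃ g0, P1 f (f g) g0 := ⟨g, hg, 1, by group⟩
    show colP Φ s.col (P1 f (f g)) (P2 f Xs s.Mk (f g)) = _
    rw [colP, dif_pos hex]
    obtain ⟨h1, h, h2⟩ := hex.choose_spec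
    generalize hex.choose = g0 at h1 h2
    obtain ⟨u, rfl⟩ := hX.surj h
    have h3 : f (u * g * u⁻¹) = f g0 := by
      rw [map_mul, map_mul, map_inv, h2]
    by_cases hg0 : g0 = 1
    · subst hg0
      have h4 : u * g * u⁻¹ = 1 := hker _ (by
        have := (isOfFinOrder_iff_pow_eq_one.1 hg)
        obtain ⟨n, hn, hn2⟩ := this
        refine isOfFinOrder_iff_pow_eq_one.2 ⟨n, hn, ?_⟩
        rw [conj_pow, hn2]
        group) (by rw [h3, map_one])
      have h5 : g = 1 := by
        have : g = u⁻¹ * (u * g * u⁻¹) * u := by group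
        rw [this, h4]
        group
      rw [h5]
    · obtain ⟨u', -, h5⟩ := hX.ctt g g0 u hg h1 hg0 h3
      rw [← h5, s.colc]
  have hcoln : ∀ (x u : s.G) (k : ℤ) (j : Fin r) (c c' : C), x ∈ Xs →
      (s.Mk x j c c' ∨ s.Mk x⁻¹ j c c') → f (x ^ k) ≠ 1 →
      col' (f (u * x ^ k * u⁻¹)) = Φ j c c' := by
    intro x u k j c c' hx hm hk
    have hno : ¬ ∃ g, P1 f (f (u * x ^ k * u⁻¹)) g := by
      rintro ⟨g, h1, h, h2⟩
      obtain ⟨v, rfl⟩ := hX.surj h
      apply hk
      refine hX.cno x hx g (v * u) k h1 ?_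
      rw [← h2]
      simp only [map_mul, map_inv]
      group
    have hex : ∃ m, P2 f Xs s.Mk (f (u * x ^ k * u⁻¹)) m :=
      ⟨(x, j, c, c'), hx, hm, k, (f u)⁻¹, by simp only [map_mul, map_inv]; group, hk⟩
    show colP Φ s.col (P1 f (f (u * x ^ k * u⁻¹))) (P2 f Xs s.Mk (f (u * x ^ k * u⁻¹))) = _
    rw [colP, dif_neg hno, dif_pos hex]
    obtain ⟨h1, h2, k0, h, h3, h4⟩ := hex.choose_spec
    generalize hex.choose = m0 at h1 h2 h3 h4
    obtain ⟨x0, j0, c0, c0'⟩ := m0
    simp only at h1 h2 h3 h4 ⊢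
    obtain ⟨v, rfl⟩ := hX.surj h
    have h5 : f (v * u * x ^ k * (v * u)⁻¹) = f (x0 ^ k0) := by
      rw [← h3]
      simp only [map_mul, map_inv]
      group
    obtain ⟨h6, -, -⟩ := hX.cnn x0 h1 x hx (v * u) k0 k h4 h5
    subst h6
    have h7 : j0 = j ∧ c0 = c ∧ c0' = c' := by
      rcases h2 with h2 | h2 <;> rcases hm with hm | hm
      · exact s.mku _ _ _ _ _ _ _ h2 hm
      · exact absurd hm (s.mki _ _ _ _ _ _ _ h2)
      · exact absurd h2 (s.mki _ _ _ _ _ _ _ hm)
      · exact s.mku _ _ _ _ _ _ _ h2 hm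
    rw [h7.1, h7.2.1, h7.2.2]
  -- the marks
  let Mk' : G' → Fin r → C → C → Prop := fun q j c c' =>
    ∃ (a b X : s.G) (u : G'), Gd s.H a b X ∧ q = u * f (Wj w j a b X) * u⁻¹ ∧ c = col' (f a) ∧
      c' = col' (f b)
  let s' : Stage (r := r) K B T N C :=
    { G := G'
      grp := inferInstance
      H := H'
      col := col'
      Mk := Mk'
      hD := hD
      stab := hst
      acy := hac
      tor := htor
      ts := hX.ts
      colc := hcolc
      mkc := by
        rintro v q j c c' ⟨a, b, X, u, h1, h2, h3, h4⟩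
        refine ⟨a, b, X, v * u, h1, ?_, h3, h4⟩
        rw [h2]
        group
      mku := by
        rintro q j j' c c' d d' ⟨a, b, X, u, h1, h2, h3, h4⟩ ⟨a', b', X', u', h1', h2', h3', h4'⟩
        have h5 : (u'⁻¹ * u) * f (Wj w j a b X) * (u'⁻¹ * u)⁻¹ = f (Wj w j' a' b' X') := by
          have h6 : (u'⁻¹ * u) * f (Wj w j a b X) * (u'⁻¹ * u)⁻¹ = u'⁻¹ * q * u' := by
            rw [h2]
            group
          rw [h6, h2']
          group
        obtain ⟨h7, g, h8, h9⟩ := (((hX.wr a b X h1 j).2.2.2.2 a' b' X' h1' j' _).1 h5)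
        refine ⟨h7, ?_, ?_⟩
        · rw [h3, h3', h8, map_mul, map_mul, map_inv, hcolc]
        · rw [h4, h4', h9, map_mul, map_mul, map_inv, hcolc]
      mki := by
        rintro q j j' c c' d d' ⟨a, b, X, u, h1, h2, h3, h4⟩ ⟨a', b', X', u', h1', h2', h3', h4'⟩
        refine ((hX.wr a b X h1 j).2.2.2.2 a' b' X' h1' j' (u'⁻¹ * u)).2 ?_
        have h6 : (u'⁻¹ * u) * f (Wj w j a b X) * (u'⁻¹ * u)⁻¹ = (u'⁻¹ * q⁻¹ * u')⁻¹ := by
          rw [h2]
          group
        rw [h6, h2']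
        group }
  exact ⟨s', f, Xs, ⟨hX, hcolo, hcoln, fun a b X j hG => ⟨a, b, X, 1, hG, by group, rfl, rfl⟩⟩,
    hKe⟩

end step

/-- the free group of rank two is not abelian -/
private theorem of_not_commute {I : Type} {i j : I} (hij : i ≠ j) :
    FreeGroup.of i * FreeGroup.of j ≠ FreeGroup.of j * FreeGroup.of i := by
  classical
  intro h
  let f : FreeGroup I →* Equiv.Perm (Fin 3) :=
    FreeGroup.lift (fun k => if k = i then Equiv.swap 0 1 else Equiv.swap 1 2)
  have h1 := congrArg f h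
  simp only [map_mul, f, FreeGroup.lift_apply_of, if_true, if_neg hij.symm] at h1
  exact absurd h1 (by decide)

/-- a stage with a homomorphism -/
structure StF {r : ℕ} (K B T N : ℕ) (C : Type) (p : ℕ) : Type 1 where
  s : Stage (r := r) K B T N C
  φ : s.G →* Multiplicative (ZMod p)

/-- existence of the sequence -/
theorem seqF (h : StepStmtE) : SqFStmt := by
  classical
  intro r δ hδ
  obtain ⟨w, R0, K, B, T, n0, hw, hR0, hK, hB, hT, -, hn0, hstep⟩ := h r δ hδ
  refine ⟨w, R0, n0, hw, hR0, hn0, ?_⟩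
  intro N p hp hpN hq C iC Φ ε hε
  have hN : N ≠ 1 := by
    intro h
    rw [h] at hpN
    exact hp.one_lt.ne' (Nat.dvd_one.1 hpN)
  -- base
  obtain ⟨H0, hD0, hS0, hA0, hlen0⟩ := base (Fin 2)
  have htf : ∀ g : FreeGroup (Fin 2), IsOfFinOrder g → g = 1 := by
    intro g hg
    obtain ⟨m, hm, h⟩ := isOfFinOrder_iff_pow_eq_one.1 hg
    have h1 : g ^ m = 1 ^ m := by rw [h, one_pow]
    exact pow_left_injective hm.ne' h1
  let s0 : Stage (r := r) K B T N C :=
    { G := FreeGroup (Fin 2)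
      grp := inferInstance
      H := H0
      col := fun _ => default
      Mk := fun _ _ _ _ => False
      hD := hD0
      stab := by
        intro g hg m
        calc m ≤ 1 * H0.len (g ^ m) := hS0 g hg m
          _ ≤ T * H0.len (g ^ m) := Nat.mul_le_mul_right _ hT
      acy := hA0 K B hB
      tor := fun g hg => by rw [htf g hg, one_pow]
      ts := fun g hg => ⟨1, fun k => by
        rw [htf g hg]
        simp [H0.len_one]⟩
      colc := fun _ _ => rfl
      mkc := fun _ _ _ _ _ h => h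
      mku := fun _ _ _ _ _ _ _ h => h.elim
      mki := fun _ _ _ _ _ _ _ h => h.elim }
  let t0 : StF (r := r) K B T N C p :=
    { s := s0
      φ := (FreeGroup.lift fun _ => Multiplicative.ofAdd 1 :
        FreeGroup (Fin 2) →* Multiplicative (ZMod p)) }
  have hnext : ∀ t : StF (r := r) K B T N C p, ∃ (t' : StF (r := r) K B T N C p)
      (f' : t.s.G →* t'.s.G) (Xs' : Set t.s.G),
      RelX w R0 Φ (exF p t.φ (exo N ε t.s.Mk)) t'.s f' Xs' ∧ ∀ g, t'.φ (f' g) = t.φ g := by
    intro t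
    obtain ⟨s, φ⟩ := t
    obtain ⟨G', iG', H', f, Xs, h1, h2, h3, h4, h5, -, h7⟩ := hstep N hq s.G s.H s.hD s.stab
      s.acy s.tor s.ts (exF p φ (exo N ε s.Mk)) (by
        intro g
        unfold exF
        split
        · exact exo_dvd N hN ε hε s.Mk g
        · exact ⟨hpN, hp.one_lt.ne'⟩)
      (by
        intro g u
        have e1 : φ (u * g * u⁻¹) = φ g := by
          rw [map_mul, map_mul, map_inv, mul_comm, inv_mul_cancel_left]
        simp only [exF, e1, exo_conj N ε s.Mk s.mkc g u])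
      (by
        intro g
        simp only [exF, map_inv, inv_eq_one, exo_inv N ε s.Mk g])
    obtain ⟨s', f', Xs', h8, h9⟩ := exists_next Φ s H' f Xs h1 h2 h3 h4 _ h5 h7
    have hker : f'.ker ≤ φ.ker := by
      rw [h9]
      refine Subgroup.normalClosure_le_normal ?_
      rintro _ ⟨x, hx, rfl⟩
      show φ (x ^ exF p φ (exo N ε s.Mk) x) = 1
      by_cases hx1 : φ x = 1
      · rw [map_pow, hx1, one_pow]
      · rw [exF, if_neg hx1, map_pow]
        have h10 : (Multiplicative.toAdd (φ x ^ p)) = 0 := by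
          rw [toAdd_pow, nsmul_eq_mul, ZMod.natCast_self, zero_mul]
        exact h10
    refine ⟨⟨s', f'.liftOfSurjective h8.st.surj ⟨φ, hker⟩⟩, f', Xs', h8, ?_⟩
    intro g
    exact MonoidHom.liftOfRightInverse_comp_apply _ _
      (Function.rightInverse_surjInv h8.st.surj) ⟨φ, hker⟩ g
  choose nx fx Xx hR using hnext
  let s : ℕ → StF (r := r) K B T N C p := fun n => Nat.rec t0 (fun _ s => nx s) n
  refine ⟨fun n => (s n).s.G, fun n => (s n).s.grp, fun n => (s n).s.H, fun n => fx (s n),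
    fun n => (s n).φ, fun n => (s n).s.col, fun n => (s n).s.Mk, fun n => Xx (s n), ?_⟩
  have hgen : ∃ x y : FreeGroup (Fin 2), Subgroup.closure {x, y} = ⊤ ∧ x * y ≠ y * x ∧
      H0.len x ≤ 1 ∧ H0.len y ≤ 1 := by
    refine ⟨FreeGroup.of 0, FreeGroup.of 1, ?_, of_not_commute (by decide), ?_, ?_⟩
    · have h1 : ({FreeGroup.of 0, FreeGroup.of 1} : Set (FreeGroup (Fin 2))) =
          Set.range FreeGroup.of := by
        ext g
        simp only [Set.mem_insert_iff, Set.mem_singleton_iff, Set.mem_range]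
        constructor
        · rintro (rfl | rfl)
          · exact ⟨0, rfl⟩
          · exact ⟨1, rfl⟩
        · rintro ⟨i, rfl⟩
          fin_cases i
          · exact Or.inl rfl
          · exact Or.inr rfl
      rw [h1]
      exact FreeGroup.closure_range_of _
    · exact (hlen0 0).le
    · exact (hlen0 1).le
  have hphs : ∃ g : FreeGroup (Fin 2), (FreeGroup.lift fun _ => Multiplicative.ofAdd 1 :
        FreeGroup (Fin 2) →* Multiplicative (ZMod p)) g = Multiplicative.ofAdd 1 :=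
    ⟨FreeGroup.of 0, FreeGroup.lift_apply_of⟩
  exact @SqF.mk r w R0 N p C Φ ε (fun n => (s n).s.G) (fun n => (s n).s.grp)
    (fun n => (s n).s.H)
    (fun n => fx (s n)) (fun n => (s n).φ) (fun n => (s n).s.col) (fun n => (s n).s.Mk)
    (fun n => Xx (s n))
    htf hgen (fun n => (s n).s.tor) (fun n => (hR (s n)).1.st) (fun n => (s n).s.ts)
    (fun n => (s n).s.colc) (fun n => (hR (s n)).1.colo) (fun n => (hR (s n)).1.coln)
    (fun n => (s n).s.mkc) (fun n => (s n).s.mku) (fun n => (s n).s.mki)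
    (fun n => (hR (s n)).1.mka) (fun n => (hR (s n)).2) hphs

end Pool.Agent.Y45.TG
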