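import Pool.Agent.Y45.MON.StmL

/-!
# Project TG (helper45): a pseudo-abelian variety with a group which is not a T-group
(MP_7d16da_al, S02038): statements of the jobs
-/

set_option autoImplicit false

namespace Pool.Agent.Y45.TG

open Pool.Agent.Y45.MON

/-- the law `W3 x y = 1` -/
def W3 (p : ℕ) (pw : FreeGroup (Fin 3)) (c d : FreeGroup (Fin 2)) {G : Type} [Group G]
    (x y : G) : G :=
  FreeGroup.lift ![FreeGroup.lift ![FreeGroup.lift ![x * y * x⁻¹ * y⁻¹,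
        FreeGroup.lift ![x * y * x⁻¹ * y⁻¹, x ^ p] c,
        FreeGroup.lift ![x * y * x⁻¹ * y⁻¹, x ^ p] d] pw,
      FreeGroup.lift ![x * y * x⁻¹ * y⁻¹, y ^ p] c,
      FreeGroup.lift ![x * y * x⁻¹ * y⁻¹, y ^ p] d] pw,
    FreeGroup.lift ![x, y] c, FreeGroup.lift ![x, y] d] pw

/-- formal properties of `pw` -/
structure Frm (pw : FreeGroup (Fin 3)) : Prop where
  com : ∀ (G : Type) [Group G] (a c d : G), c * d = d * c → FreeGroup.lift ![a, c, d] pw = a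
  one : ∀ (G : Type) [Group G] (c d : G), FreeGroup.lift ![1, c, d] pw = 1

/-- formal property of `c`, `d` -/
def Cv (c : FreeGroup (Fin 2)) : Prop :=
  ∀ (G : Type) [Group G] (x y : G), x * y = y * x → FreeGroup.lift ![x, y] c = 1

/-- the group `X` with the words -/
structure WD (p : ℕ) (pw : FreeGroup (Fin 3)) (c d : FreeGroup (Fin 2)) (X : Type) [Group X]
    (φ : X →* Multiplicative (ZMod p)) : Prop where
  nab : ∃ x y : X, x * y ≠ y * x
  sur : ∃ α : X, φ α = Multiplicative.ofAdd 1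
  cen : ∀ y h : X, φ y ≠ 1 → φ h = 1 → y * h = h * y → h = 1
  pw1 : ∀ a c d : X, φ a = 1 → c * d ≠ d * c → FreeGroup.lift ![a, c, d] pw = 1
  cd : ∀ x y : X, x * y ≠ y * x → FreeGroup.lift ![x, y] c * FreeGroup.lift ![x, y] d ≠
    FreeGroup.lift ![x, y] d * FreeGroup.lift ![x, y] c

/-- the limit group with a homomorphism -/
structure XG {r : ℕ} (w : WP r) (p : ℕ) (ε : Fin r → ℕ) (X : Type) [Group X]
    (φ : X →* Multiplicative (ZMod p)) (rk : X → ℕ) : Prop where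
  nab : ∃ x y : X, x * y ≠ y * x
  sur : ∃ α : X, φ α = Multiplicative.ofAdd 1
  rkc : ∀ a b : X, a ≠ 1 → b ≠ 1 → a * b = b * a → rk a = rk b
  rk1 : ∀ (j : Fin r) (a b : X), a * b ≠ b * a → rk a < rk (vv w j a b) ∧ rk b < rk (vv w j a b)
  ord : ∀ (j : Fin r) (a b : X), φ (vv w j a b) = 1 → a * b ≠ b * a →
    orderOf (vv w j a b) = ε j
  cen : ∀ y h : X, φ y ≠ 1 → φ h = 1 → y * h = h * y → h = 1

/-- TG0: existence of the group `X` -/
def XStmt : Prop := ∀ (r : ℕ) (δ : Fin r → ℕ), (∀ j, δ j = 1 ∨ δ j = 2) →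
  ∃ (w : WP r) (n0 : ℕ), w.δ = δ ∧ 3 ≤ n0 ∧
    ∀ (N p : ℕ), p.Prime → p ∣ N → (∀ q : ℕ, q.Prime → q ∣ N → n0 ≤ q) →
      ∀ ε : Fin r → ℕ, (∀ j, ε j ∣ N ∧ ε j ≠ 1) →
      ∃ (X : Type) (_ : Group X) (φ : X →* Multiplicative (ZMod p)) (rk : X → ℕ),
        XG w p ε X φ rk

/-- TG1: the words -/
def WDStmt : Prop := XStmt →
  ∃ (p : ℕ) (pw : FreeGroup (Fin 3)) (c d : FreeGroup (Fin 2)) (X : Type) (_ : Group X)
    (φ : X →* Multiplicative (ZMod p)),
    p.Prime ∧ Frm pw ∧ Cv c ∧ Cv d ∧ WD p pw c d X φ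

/-- TG2: metabelian groups -/
def MetStmt : Prop := ∀ (p : ℕ) (pw : FreeGroup (Fin 3)) (c d : FreeGroup (Fin 2)),
  Frm pw → Cv c → Cv d → ∀ (G : Type) [Group G],
  (∀ a ∈ commutator G, ∀ b ∈ commutator G, a * b = b * a) →
  ∀ x y : G, W3 p pw c d x y = x * y * x⁻¹ * y⁻¹

/-- TG3: finite groups -/
def FinStmt : Prop := ∀ L : Set (FreeGroup ℕ),
  (∀ (G : Type) [Group G] [Finite G], (∀ w ∈ L, ∀ ψ : FreeGroup ℕ →* G, ψ w = 1) →
    (∀ a ∈ commutator G, ∀ b ∈ commutator G, a * b = b * a) → ∀ a b : G, a * b = b * a) →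
  ∀ (G : Type) [Group G] [Finite G], (∀ w ∈ L, ∀ ψ : FreeGroup ℕ →* G, ψ w = 1) →
    ∀ a b : G, a * b = b * a

/-- the group `G`: `B` is the base subgroup with the coordinates `e i` -/
structure WG (p : ℕ) (X : Type) [Group X] (φ : X →* Multiplicative (ZMod p)) (G : Type) [Group G]
    (B : Subgroup G) (e : Fin p → (B →* X)) : Prop where
  inj : ∀ g : B, (∀ i, e i g = 1) → g = 1
  com : ∀ x y : G, ∃ h : x * y * x⁻¹ * y⁻¹ ∈ B, ∀ i, φ (e i ⟨x * y * x⁻¹ * y⁻¹, h⟩) = 1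
  pow : ∀ x : G, ∃ h : x ^ p ∈ B, x ∉ B → ∀ i, φ (e i ⟨x ^ p, h⟩) ≠ 1
  sub : ∃ H : Subgroup G, (∃ n : ℕ, ∃ f : ℕ → Subgroup G, f 0 = H ∧ f n = ⊤ ∧
    ∀ i < n, f i ≤ f (i + 1) ∧ ((f i).subgroupOf (f (i + 1))).Normal) ∧ ¬ H.Normal

/-- TG4: the wreath product -/
def WreathStmt : Prop := ∀ (p : ℕ) (X : Type) [Group X] (φ : X →* Multiplicative (ZMod p)),
  p.Prime → (∃ α : X, φ α = Multiplicative.ofAdd 1) → (∃ h : X, h ≠ 1 ∧ φ h = 1) →
  ∃ (G : Type) (_ : Group G) (B : Subgroup G) (e : Fin p → (B →* X)), WG p X φ G B e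

/-- TG5: the law -/
def LawStmt : Prop := ∀ (p : ℕ) (pw : FreeGroup (Fin 3)) (c d : FreeGroup (Fin 2)),
  p.Prime → Frm pw → Cv c → Cv d → ∀ (X : Type) [Group X] (φ : X →* Multiplicative (ZMod p)),
  WD p pw c d X φ → ∀ (G : Type) [Group G] (B : Subgroup G) (e : Fin p → (B →* X)),
  WG p X φ G B e → ∀ x y : G, W3 p pw c d x y = 1

/-- the frozen statement S02038 -/
def Goal : Prop :=
    ¬ (∀ L : Set (FreeGroup ℕ),
      (∃ (G : Type) (_ : Group G),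
          (∀ w ∈ L, ∀ φ : FreeGroup ℕ →* G, φ w = 1) ∧ ∃ a b : G, a * b ≠ b * a) →
      (∀ (G : Type) [Group G] [Finite G],
          (∀ w ∈ L, ∀ φ : FreeGroup ℕ →* G, φ w = 1) → ∀ a b : G, a * b = b * a) →
      ∀ (G : Type) [Group G],
        (∀ w ∈ L, ∀ φ : FreeGroup ℕ →* G, φ w = 1) →
        ∀ H : Subgroup G,
          (∃ n : ℕ, ∃ f : ℕ → Subgroup G, f 0 = H ∧ f n = ⊤ ∧
              ∀ i < n, f i ≤ f (i + 1) ∧ ((f i).subgroupOf (f (i + 1))).Normal) →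
          H.Normal)

theorem lift2_map {G H : Type} [Group G] [Group H] (ψ : G →* H) (x y : G)
    (c : FreeGroup (Fin 2)) : ψ (FreeGroup.lift ![x, y] c) = FreeGroup.lift ![ψ x, ψ y] c := by
  have : ψ.comp (FreeGroup.lift ![x, y]) = FreeGroup.lift ![ψ x, ψ y] := by
    ext i; fin_cases i <;> simp
  exact DFunLike.congr_fun this c

theorem lift3_map {G H : Type} [Group G] [Group H] (ψ : G →* H) (x y z : G)
    (c : FreeGroup (Fin 3)) :
    ψ (FreeGroup.lift ![x, y, z] c) = FreeGroup.lift ![ψ x, ψ y, ψ z] c := by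
  have : ψ.comp (FreeGroup.lift ![x, y, z]) = FreeGroup.lift ![ψ x, ψ y, ψ z] := by
    ext i; fin_cases i <;> simp
  exact DFunLike.congr_fun this c

theorem W3_map {G H : Type} [Group G] [Group H] (ψ : G →* H) (p : ℕ) (pw : FreeGroup (Fin 3))
    (c d : FreeGroup (Fin 2)) (x y : G) : ψ (W3 p pw c d x y) = W3 p pw c d (ψ x) (ψ y) := by
  simp only [W3, lift3_map, lift2_map, map_mul, map_inv, map_pow]

/-- TG6: assembly -/
theorem goal_of (hX : XStmt) (h1 : WDStmt) (h2 : MetStmt) (h3 : FinStmt) (h4 : WreathStmt)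
    (h5 : LawStmt) : Goal := by
  intro hall
  obtain ⟨p, pw, c, d, X, iX, φ, hp, hF, hc, hd, hW⟩ := h1 hX
  have hh : ∃ h : X, h ≠ 1 ∧ φ h = 1 := by
    obtain ⟨x, y, hxy⟩ := hW.nab
    refine ⟨x * y * x⁻¹ * y⁻¹, ?_, ?_⟩
    · intro h
      apply hxy
      have := mul_inv_eq_one.1 h
      rw [mul_inv_eq_iff_eq_mul] at this
      exact this
    · simp only [map_mul, map_inv]
      rw [mul_comm (φ x) (φ y)]
      simp
  obtain ⟨G, iG, B, e, hG⟩ := h4 p X φ hp hW.sur hh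
  have hlaw := h5 p pw c d hp hF hc hd X φ hW G B e hG
  let law : FreeGroup ℕ := W3 p pw c d (FreeGroup.of 0) (FreeGroup.of 1)
  have hsat : ∀ w ∈ ({law} : Set (FreeGroup ℕ)), ∀ ψ : FreeGroup ℕ →* G, ψ w = 1 := by
    rintro w rfl ψ
    show ψ (W3 p pw c d (FreeGroup.of 0) (FreeGroup.of 1)) = 1
    rw [W3_map]
    exact hlaw _ _
  obtain ⟨H, hH1, hH2⟩ := hG.sub
  have hnab : ∃ a b : G, a * b ≠ b * a := by
    by_contra hcon
    push Not at hcon
    apply hH2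
    constructor
    intro n hn g
    rw [hcon g n, mul_inv_cancel_right]
    exact hn
  have hfin := h3 {law} (by
    intro K _ _ hK hm a b
    let ψ : FreeGroup ℕ →* K := FreeGroup.lift fun i => if i = 0 then a else b
    have h := hK law rfl ψ
    have h' : W3 p pw c d a b = 1 := by
      have e1 : ψ (W3 p pw c d (FreeGroup.of 0) (FreeGroup.of 1)) = 1 := h
      rw [W3_map] at e1
      simpa [ψ] using e1
    rw [h2 p pw c d hF hc hd K hm a b] at h'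
    have := mul_inv_eq_one.1 h'
    rw [mul_inv_eq_iff_eq_mul] at this
    exact this)
  exact hH2 (hall {law} ⟨G, iG, hsat, hnab⟩ (fun K _ _ hK => hfin K hK) G hsat H hH1)

end Pool.Agent.Y45.TG
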