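import Pool.Agent.Y45.MON.StmS
import Pool.Agent.Y45.TG.Stm

/-!
# Project TG (helper45): the sequence of groups with homomorphisms to a cyclic group
-/

set_option autoImplicit false

namespace Pool.Agent.Y45.TG

open Pool.Agent.TH54.BU Pool.Agent.Y45.MON

open Classical in
/-- the exponents: `p` outside of the kernel of `φ` -/
noncomputable def exF {G : Type} [Group G] (p : ℕ) (φ : G →* Multiplicative (ZMod p)) (e : G → ℕ)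
    (g : G) : ℕ := if φ g = 1 then e g else p

/-- the sequence of groups with colours and marks and homomorphisms -/
structure SqF {r : ℕ} (w : WP r) (R0 N p : ℕ) {C : Type} (Φ : Fin r → C → C → C)
    (ε : Fin r → C → C → ℕ) (G : ℕ → Type) [∀ n, Group (G n)] (H : ∀ n, GH (G n))
    (f : ∀ n, G n →* G (n + 1)) (φ : ∀ n, G n →* Multiplicative (ZMod p)) (col : ∀ n, G n → C)
    (Mk : ∀ n, G n → Fin r → C → C → Prop) (Xs : ∀ n, Set (G n)) : Prop where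
  free : ∀ g : G 0, IsOfFinOrder g → g = 1
  gen : ∃ x y : G 0, Subgroup.closure {x, y} = ⊤ ∧ x * y ≠ y * x ∧ (H 0).len x ≤ 1 ∧
    (H 0).len y ≤ 1
  tor : ∀ n, Tor (G n) N
  st : ∀ n, StepX w R0 (exF p (φ n) (exo N ε (Mk n))) (Xs n) (H n) (H (n + 1)) (f n)
  ts : ∀ (n : ℕ) (g : G n), IsOfFinOrder g → ∃ u : G n, Sp (H n) (u * g * u⁻¹)
  colc : ∀ (n : ℕ) (u g : G n), col n (u * g * u⁻¹) = col n g
  colo : ∀ (n : ℕ) (g : G n), IsOfFinOrder g → col (n + 1) (f n g) = col n g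
  coln : ∀ (n : ℕ) (x u : G n) (k : ℤ) (j : Fin r) (c c' : C), x ∈ Xs n →
    (Mk n x j c c' ∨ Mk n x⁻¹ j c c') → f n (x ^ k) ≠ 1 →
    col (n + 1) (f n (u * x ^ k * u⁻¹)) = Φ j c c'
  mkc : ∀ (n : ℕ) (u g : G n) (j : Fin r) (c c' : C), Mk n g j c c' → Mk n (u * g * u⁻¹) j c c'
  mku : ∀ (n : ℕ) (g : G n) (j j' : Fin r) (c c' d d' : C), Mk n g j c c' → Mk n g j' d d' →
    j = j' ∧ c = d ∧ c' = d'
  mki : ∀ (n : ℕ) (g : G n) (j j' : Fin r) (c c' d d' : C), Mk n g j c c' → ¬ Mk n g⁻¹ j' d d'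
  mka : ∀ (n : ℕ) (a b X : G n) (j : Fin r), Gd (H n) a b X →
    Mk (n + 1) (f n (Wj w j a b X)) j (col (n + 1) (f n a)) (col (n + 1) (f n b))
  phi : ∀ (n : ℕ) (g : G n), φ (n + 1) (f n g) = φ n g
  phs : ∃ g : G 0, φ 0 g = Multiplicative.ofAdd 1

/-- TG0a: existence of the sequence -/
def SqFStmt : Prop := ∀ (r : ℕ) (δ : Fin r → ℕ), (∀ j, δ j = 1 ∨ δ j = 2) →
  ∃ (w : WP r) (R0 n0 : ℕ), w.δ = δ ∧ 1 ≤ R0 ∧ 3 ≤ n0 ∧
    ∀ N p : ℕ, p.Prime → p ∣ N → (∀ q : ℕ, q.Prime → q ∣ N → n0 ≤ q) →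
      ∀ (C : Type) (_ : Inhabited C) (Φ : Fin r → C → C → C) (ε : Fin r → C → C → ℕ),
      (∀ j c c', ε j c c' ∣ N ∧ ε j c c' ≠ 1) →
      ∃ (G : ℕ → Type) (_ : ∀ n, Group (G n)) (H : ∀ n, GH (G n)) (f : ∀ n, G n →* G (n + 1))
        (φ : ∀ n, G n →* Multiplicative (ZMod p))
        (col : ∀ n, G n → C) (Mk : ∀ n, G n → Fin r → C → C → Prop) (Xs : ∀ n, Set (G n)),
        SqF w R0 N p Φ ε G H f φ col Mk Xs

/-- TG0b: the limit -/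
def LimFStmt : Prop := ∀ (r : ℕ) (w : WP r) (R0 N p : ℕ) (C : Type) (Φ : Fin r → C → C → C)
  (ε : Fin r → C → C → ℕ) (G : ℕ → Type) (_ : ∀ n, Group (G n)) (H : ∀ n, GH (G n))
  (f : ∀ n, G n →* G (n + 1)) (φ : ∀ n, G n →* Multiplicative (ZMod p)) (col : ∀ n, G n → C)
  (Mk : ∀ n, G n → Fin r → C → C → Prop)
  (Xs : ∀ n, Set (G n)), 1 ≤ R0 → p.Prime → p ∣ N → (∀ q : ℕ, q.Prime → q ∣ N → 3 ≤ q) →
  (∀ j c c', ε j c c' ∣ N ∧ ε j c c' ≠ 1) → SqF w R0 N p Φ ε G H f φ col Mk Xs →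
  ∃ (L : Type) (_ : Group L) (φL : L →* Multiplicative (ZMod p)) (colL : L → C) (rk : L → ℕ),
    (∀ g : L, g ^ N = 1) ∧
    (∃ x y : L, Subgroup.closure {x, y} = ⊤ ∧ x * y ≠ y * x) ∧
    (∃ α : L, φL α = Multiplicative.ofAdd 1) ∧
    (∀ a b : L, a ≠ 1 → b ≠ 1 → a * b = b * a → rk a = rk b) ∧
    (∀ (j : Fin r) (a b : L), a * b ≠ b * a →
      rk a < rk (vv w j a b) ∧ rk b < rk (vv w j a b)) ∧
    (∀ (j : Fin r) (a b : L), φL (vv w j a b) = 1 → a * b ≠ b * a →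
      orderOf (vv w j a b) = ε j (colL a) (colL b)) ∧
    (∀ (j : Fin r) (a b : L), a * b ≠ b * a → colL (vv w j a b) = Φ j (colL a) (colL b)) ∧
    ∀ y h : L, φL y ≠ 1 → φL h = 1 → y * h = h * y → h = 1

theorem x_of (h1 : SqFStmt) (h2 : LimFStmt) : XStmt := by
  intro r δ hδ
  obtain ⟨w, R0, n0, h3, h4, h5, h6⟩ := h1 r δ hδ
  refine ⟨w, n0, h3, h5, ?_⟩
  intro N p hp hpN hq ε hε
  obtain ⟨G, iG, H, f, φ, col, Mk, Xs, hS⟩ := h6 N p hp hpN hq Unit ⟨()⟩ (fun _ _ _ => ())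
    (fun j _ _ => ε j) (fun j _ _ => hε j)
  obtain ⟨L, iL, φL, colL, rk, a1, ⟨x, y, -, a2⟩, a3, a4, a5, a6, -, a8⟩ :=
    h2 r w R0 N p Unit (fun _ _ _ => ()) (fun j _ _ => ε j) G iG H f φ col Mk Xs h4 hp hpN
      (fun q hq1 hq2 => h5.trans (hq q hq1 hq2)) (fun j _ _ => hε j) hS
  exact ⟨L, iL, φL, rk, ⟨x, y, a2⟩, a3, a4, a5, a6, a8⟩

end Pool.Agent.Y45.TG
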