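import Pool.Agent.Y45.TG.Seq
import Pool.Agent.Y45.TG.Lim
import Pool.Agent.Y45.MON.Main

/-!
# Project TG (helper45): the group `X`
-/

set_option autoImplicit false

namespace Pool.Agent.Y45.TG

open Pool.Agent.TH54.BU Pool.Agent.Y45.MON Pool.Agent.Y314.HM

theorem xEx : XStmt :=
  x_of (seqF (stepJobE aWr aXa aPb aGr aQuo aStabTor aMix aOrd aConjN aConjO aConjT)) limF

end Pool.Agent.Y45.TG
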